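import Pool.Agent.MNE.StmtsB

/-!
# Row TWO of MNE (helper64): a weak bound for a linear form in two logarithms
-/

set_option autoImplicit false

namespace Pool.Agent.MNE.H64

open Finset Pool.Agent.MNE

/-- closeness in logarithmic form -/
theorem near_log {f A W z w : ℕ} (hf : 2 ≤ f) (h : Near f A W z w) :
    0 < (z : ℝ) * Real.log A - w * Real.log W ∧
    ((z : ℝ) * Real.log A - w * Real.log W) ^ 50 * (2 : ℝ) ^ (7 * w) ≤ 1 := by
  have hW2 : 2 ≤ W := le_trans hf h.hW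
  have hW2' : (2 : ℝ) ≤ W := by exact_mod_cast hW2
  have e1 : (z : ℝ) * Real.log A = Real.log ((A : ℝ) ^ z) := (Real.log_pow (A : ℝ) z).symm
  have e2 : (w : ℝ) * Real.log W = Real.log ((W : ℝ) ^ w) := (Real.log_pow (W : ℝ) w).symm
  rw [e1, e2]
  obtain ⟨Y, hY⟩ : ∃ Y : ℝ, Y = (W : ℝ) ^ w := ⟨_, rfl⟩
  obtain ⟨Q, hQ⟩ : ∃ Q : ℝ, Q = (A : ℝ) ^ z := ⟨_, rfl⟩
  rw [← hY, ← hQ]
  have hlt : Y < Q := by rw [hY, hQ]; exact_mod_cast h.lt
  have hYpos : 0 < Y := by rw [hY]; positivity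
  have hle : (Q - Y) ^ 50 ≤ Y ^ 43 := by
    have h1 := h.le
    have h2 : (((A ^ z - W ^ w : ℕ) : ℝ)) ^ 50 ≤ ((W ^ w : ℕ) : ℝ) ^ 43 := by exact_mod_cast h1
    rw [Nat.cast_sub h.lt.le] at h2
    push_cast at h2
    rw [hY, hQ]
    exact h2
  have hpos : 0 < Real.log Q - Real.log Y := sub_pos.mpr (Real.log_lt_log hYpos hlt)
  refine ⟨hpos, ?_⟩
  have hb : Real.log Q - Real.log Y ≤ (Q - Y) / Y := by
    rw [← Real.log_div (ne_of_gt (hYpos.trans hlt)) (ne_of_gt hYpos)]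
    have h3 := Real.log_le_sub_one_of_pos (div_pos (hYpos.trans hlt) hYpos)
    rw [sub_div, div_self (ne_of_gt hYpos)]
    exact h3
  have h50 : (Real.log Q - Real.log Y) ^ 50 ≤ ((Q - Y) / Y) ^ 50 := pow_le_pow_left₀ hpos.le hb 50
  have hY2 : (2 : ℝ) ^ (7 * w) ≤ Y ^ 7 := by
    rw [hY, ← pow_mul, mul_comm w 7]
    exact pow_le_pow_left₀ (by norm_num) hW2' _
  calc (Real.log Q - Real.log Y) ^ 50 * (2 : ℝ) ^ (7 * w)
      ≤ ((Q - Y) / Y) ^ 50 * Y ^ 7 :=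
        mul_le_mul h50 hY2 (by positivity) (by positivity)
    _ = (Q - Y) ^ 50 / Y ^ 43 := by
        rw [div_pow, div_mul_eq_mul_div, div_eq_div_iff (by positivity) (by positivity)]
        ring
    _ ≤ 1 := by rw [div_le_one (by positivity)]; exact hle

/-- the points are different -/
theorem distinct {w z R : ℕ} (hw : 0 < w) (hg : Nat.gcd z w ≤ 7) (hR : 7 * R ≤ w)
    (r s r' s' : ℕ) (hs : s < R) (hs' : s' < R)
    (h : r * w + s * z = r' * w + s' * z) : r = r' ∧ s = s' := by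
  obtain ⟨z', w', hco, hz, hw'⟩ := Nat.exists_coprime z w
  obtain ⟨g, hgd⟩ : ∃ g : ℕ, g = Nat.gcd z w := ⟨_, rfl⟩
  rw [← hgd] at hz hw' hg
  have hgpos : 0 < g := by rw [hgd]; exact Nat.gcd_pos_of_pos_right z hw
  have hRw : R ≤ w' := by
    have h1 : 7 * R ≤ 7 * w' := by
      calc 7 * R ≤ w := hR
        _ = w' * g := hw'
        _ ≤ w' * 7 := Nat.mul_le_mul_left _ hg
        _ = 7 * w' := by ring
    omega
  have h1 : r * w' + s * z' = r' * w' + s' * z' := by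
    have h2 : g * (r * w' + s * z') = g * (r' * w' + s' * z') := by
      calc g * (r * w' + s * z') = r * (w' * g) + s * (z' * g) := by ring
        _ = r * w + s * z := by rw [← hw', ← hz]
        _ = r' * w + s' * z := h
        _ = r' * (w' * g) + s' * (z' * g) := by rw [← hw', ← hz]
        _ = g * (r' * w' + s' * z') := by ring
    exact Nat.eq_of_mul_eq_mul_left hgpos h2
  have h1' : (r : ℤ) * w' + s * z' = r' * w' + s' * z' := by exact_mod_cast h1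
  have hdvd : (w' : ℤ) ∣ ((s : ℤ) - s') * z' := ⟨(r' : ℤ) - r, by linear_combination h1'⟩
  have hic : IsCoprime (w' : ℤ) (z' : ℤ) := by
    rw [Nat.isCoprime_iff_coprime]
    exact hco.symm
  have hd2 : (w' : ℤ) ∣ ((s : ℤ) - s') := hic.dvd_of_dvd_mul_right hdvd
  have habs : |(s : ℤ) - s'| < w' := by
    rw [abs_lt]
    constructor <;> omega
  have hs0 : (s : ℤ) - s' = 0 := Int.eq_zero_of_abs_lt_dvd hd2 habs
  have hss : s = s' := by omega
  refine ⟨?_, hss⟩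
  subst hss
  have h3 : r * w = r' * w := by omega
  exact Nat.eq_of_mul_eq_mul_right hw h3

/-! ### numerical facts -/

theorem n1 {N w : ℕ} (hN : 2 ^ 60 ≤ N) (hw : w < (N + 1) ^ 48) : 64 * N ^ 8 * w ≤ N ^ 57 := by
  have hN1 : 1 ≤ N := le_trans (Nat.one_le_two_pow) hN
  have h1 : (N + 1) ^ 48 ≤ (2 * N) ^ 48 := Nat.pow_le_pow_left (by omega) 48
  have h2 : w ≤ 2 ^ 48 * N ^ 48 := by
    rw [← mul_pow]; exact le_trans hw.le h1
  have h3 : 2 ^ 54 ≤ N := le_trans (by norm_num) hN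
  calc 64 * N ^ 8 * w ≤ 64 * N ^ 8 * (2 ^ 48 * N ^ 48) := Nat.mul_le_mul_left _ h2
    _ = 2 ^ 54 * N ^ 56 := by ring
    _ ≤ N * N ^ 56 := Nat.mul_le_mul_right _ h3
    _ = N ^ 57 := by ring

theorem n2 {N : ℕ} (hN : 2 ^ 60 ≤ N) : N ^ 16 * 128 ≤ N ^ 17 := by
  have h3 : 128 ≤ N := le_trans (by norm_num) hN
  calc N ^ 16 * 128 ≤ N ^ 16 * N := Nat.mul_le_mul_left _ h3
    _ = N ^ 17 := by ring

theorem n3 {N : ℕ} (hN : 2 ^ 60 ≤ N) : 65536 * N ^ 12 ≤ N ^ 16 := by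
  have h3 : 65536 ≤ N := le_trans (by norm_num) hN
  have hN1 : 1 ≤ N := le_trans (Nat.one_le_two_pow) hN
  calc 65536 * N ^ 12 ≤ N * N ^ 12 := Nat.mul_le_mul_right _ h3
    _ = N ^ 13 := by ring
    _ ≤ N ^ 16 := Nat.pow_le_pow_right hN1 (by norm_num)

theorem n4 {K : ℕ} (hK : 1 ≤ K) : (60 * K + 17) * (K * 128) + 1 ≤ K * 128 * (K * 128 - 1) := by
  have h1 : 60 * K + 18 ≤ K * 128 - 1 := by omega
  calc (60 * K + 17) * (K * 128) + 1 ≤ (60 * K + 17) * (K * 128) + 1 * (K * 128) := by omega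
    _ = K * 128 * (60 * K + 18) := by ring
    _ ≤ K * 128 * (K * 128 - 1) := Nat.mul_le_mul_left _ h1

theorem n5 {N : ℕ} (hN : 2 ^ 60 ≤ N) :
    (58 * N ^ 16 + 18) * (N ^ 16 * 128) + 9 ≤ N ^ 33 := by
  have hN1 : 1 ≤ N := le_trans (Nat.one_le_two_pow) hN
  have h3 : 9737 ≤ N := le_trans (by norm_num) hN
  have hK : 1 ≤ N ^ 16 := Nat.one_le_pow _ _ hN1
  have h4 : 58 * N ^ 16 + 18 ≤ 76 * N ^ 16 := by omega
  have h5 : 1 ≤ N ^ 16 * N ^ 16 := Nat.mul_le_mul hK hK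
  calc (58 * N ^ 16 + 18) * (N ^ 16 * 128) + 9
      ≤ (76 * N ^ 16) * (N ^ 16 * 128) + 9 * (N ^ 16 * N ^ 16) :=
        Nat.add_le_add (Nat.mul_le_mul_right _ h4) (by omega)
    _ = 9737 * N ^ 32 := by ring
    _ ≤ N * N ^ 32 := Nat.mul_le_mul_right _ h3
    _ = N ^ 33 := by ring

theorem n6 {N w : ℕ} (hN : 2 ^ 60 ≤ N) (hw : N ^ 48 ≤ w) : 100 + N * (N ^ 33 * 50) ≤ 7 * w := by
  have hN1 : 1 ≤ N := le_trans (Nat.one_le_two_pow) hN
  have h3 : 50 ≤ N := le_trans (by norm_num) hN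
  have h4 : N * (N ^ 33 * 50) ≤ N ^ 48 := by
    calc N * (N ^ 33 * 50) ≤ N * (N ^ 33 * N) := by gcongr
      _ = N ^ 35 := by ring
      _ ≤ N ^ 48 := Nat.pow_le_pow_right hN1 (by norm_num)
  have h5 : 100 ≤ N ^ 48 := by
    calc 100 ≤ N := le_trans (by norm_num) hN
      _ = N ^ 1 := (pow_one N).symm
      _ ≤ N ^ 48 := Nat.pow_le_pow_right hN1 (by norm_num)
  omega

theorem n7 {N w : ℕ} (hN : 2 ^ 60 ≤ N) (hw : N ^ 48 ≤ w) : 7 * (16 * N ^ 8) ≤ w := by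
  have hN1 : 1 ≤ N := le_trans (Nat.one_le_two_pow) hN
  have h3 : 112 ≤ N := le_trans (by norm_num) hN
  calc 7 * (16 * N ^ 8) = 112 * N ^ 8 := by ring
    _ ≤ N * N ^ 8 := Nat.mul_le_mul_right _ h3
    _ = N ^ 9 := by ring
    _ ≤ N ^ 48 := Nat.pow_le_pow_right hN1 (by norm_num)
    _ ≤ w := hw

theorem n8 {N : ℕ} (hN : 2 ^ 60 ≤ N) :
    (N ^ 16 - 1) * 128 < (16 * N ^ 8 - 128) * (16 * N ^ 8) := by
  have hN1 : 1 ≤ N := le_trans (Nat.one_le_two_pow) hN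
  have h3 : 16 ≤ N ^ 8 := by
    calc 16 ≤ N := le_trans (by norm_num) hN
      _ = N ^ 1 := (pow_one N).symm
      _ ≤ N ^ 8 := Nat.pow_le_pow_right hN1 (by norm_num)
  have h4 : 8 * N ^ 8 ≤ 16 * N ^ 8 - 128 := by omega
  have hK : 1 ≤ N ^ 16 := Nat.one_le_pow _ _ hN1
  calc (N ^ 16 - 1) * 128 < N ^ 16 * 128 := by omega
    _ = (8 * N ^ 8) * (16 * N ^ 8) := by ring
    _ ≤ (16 * N ^ 8 - 128) * (16 * N ^ 8) := Nat.mul_le_mul_right _ h4

/-- the integral matrix has a minor of absolute value at least one -/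
theorem minor (hmin : MinStmt) (zer : ZerStmt) {K L R w z A W : ℕ} (hA : 2 ≤ A) (hW : 1 ≤ W)
    (hw : 0 < w) (hLR : L ≤ R) (hc : (K - 1) * L < (R - L) * R)
    (hinj : ∀ r s r' s' : ℕ, r < R → s < R → r' < R → s' < R →
      r * w + s * z = r' * w + s' * z → r = r' ∧ s = s') :
    ∃ e : Fin (K * L) → Fin R × Fin R,
      1 ≤ |Matrix.det (Matrix.of fun i j : Fin (K * L) =>
        (((((e j).1 : ℕ) * w + ((e j).2 : ℕ) * z : ℕ) : ℝ) ^ ((finProdFinEquiv.symm i).1 : ℕ) *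
        ((A : ℝ) ^ (((finProdFinEquiv.symm i).2 : ℕ) * ((e j).1 : ℕ)) *
          (W : ℝ) ^ (((finProdFinEquiv.symm i).2 : ℕ) * ((e j).2 : ℕ)))))| := by
  obtain ⟨e, he⟩ := hmin (Fin (K * L)) (Fin R × Fin R) (fun i j =>
    ((((j.1 : ℕ) * w + (j.2 : ℕ) * z : ℕ) : ℝ) ^ ((finProdFinEquiv.symm i).1 : ℕ) *
        ((A : ℝ) ^ (((finProdFinEquiv.symm i).2 : ℕ) * (j.1 : ℕ)) *
          (W : ℝ) ^ (((finProdFinEquiv.symm i).2 : ℕ) * (j.2 : ℕ))))) (by
      intro c hc'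
      have hp := zer K L R w z A W (fun k m => c (finProdFinEquiv (k, m))) hA hW hw hLR hc hinj (by
        intro r s hr hs
        have h1 := hc' (⟨r, hr⟩, ⟨s, hs⟩)
        rw [← Equiv.sum_comp finProdFinEquiv, Fintype.sum_prod_type] at h1
        simpa using h1)
      funext i
      have h2 : c (finProdFinEquiv (finProdFinEquiv.symm i)) = 0 :=
        congrFun (congrFun hp (finProdFinEquiv.symm i).1) (finProdFinEquiv.symm i).2
      rw [Equiv.apply_symm_apply] at h2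
      exact h2)
  refine ⟨e, ?_⟩
  obtain ⟨B, hB⟩ : ∃ B : Matrix (Fin (K * L)) (Fin (K * L)) ℤ, B = Matrix.of fun i j =>
      (((((e j).1 : ℕ) * w + ((e j).2 : ℕ) * z : ℕ) : ℤ) ^ ((finProdFinEquiv.symm i).1 : ℕ) *
        ((A : ℤ) ^ (((finProdFinEquiv.symm i).2 : ℕ) * ((e j).1 : ℕ)) *
          (W : ℤ) ^ (((finProdFinEquiv.symm i).2 : ℕ) * ((e j).2 : ℕ)))) := ⟨_, rfl⟩
  have hcast : (Matrix.of fun i j : Fin (K * L) =>
        (((((e j).1 : ℕ) * w + ((e j).2 : ℕ) * z : ℕ) : ℝ) ^ ((finProdFinEquiv.symm i).1 : ℕ) *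
        ((A : ℝ) ^ (((finProdFinEquiv.symm i).2 : ℕ) * ((e j).1 : ℕ)) *
          (W : ℝ) ^ (((finProdFinEquiv.symm i).2 : ℕ) * ((e j).2 : ℕ))))) =
      B.map fun x : ℤ => (x : ℝ) := by
    ext i j
    rw [hB]
    simp
  rw [hcast, ← Int.cast_det]
  rw [hcast, ← Int.cast_det] at he
  have hne : B.det ≠ 0 := fun h0 => he (by rw [h0]; simp)
  have h1 : 1 ≤ |B.det| := Int.one_le_abs hne
  exact_mod_cast h1

/-- an entry in exponential form -/
theorem entry {A W z w : ℕ} (hA : 2 ≤ A) (hW : 2 ≤ W) (hw : 0 < w) (k m r s : ℕ) :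
    ((r * w + s * z : ℕ) : ℝ) ^ k * ((A : ℝ) ^ (m * r) * (W : ℝ) ^ (m * s)) =
    ((r * w + s * z : ℕ) : ℝ) ^ k *
      Real.exp (((m : ℝ) * (Real.log A / w)) * ((r * w + s * z : ℕ) : ℝ)) *
      (1 + (Real.exp (-((m : ℝ) * s * ((z : ℝ) * Real.log A - w * Real.log W) / w)) - 1)) := by
  have hA' : (0 : ℝ) < A := by exact_mod_cast lt_of_lt_of_le two_pos hA
  have hW' : (0 : ℝ) < W := by exact_mod_cast lt_of_lt_of_le two_pos hW
  have hw' : (0 : ℝ) < w := by exact_mod_cast hw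
  have h1 : (A : ℝ) ^ (m * r) = Real.exp (((m * r : ℕ) : ℝ) * Real.log A) := by
    rw [Real.exp_nat_mul, Real.exp_log hA']
  have h2 : (W : ℝ) ^ (m * s) = Real.exp (((m * s : ℕ) : ℝ) * Real.log W) := by
    rw [Real.exp_nat_mul, Real.exp_log hW']
  rw [h1, h2, ← Real.exp_add, mul_assoc, add_sub_cancel, ← Real.exp_add]
  congr 2
  push_cast
  field_simp
  ring

theorem exp_neg_bound {t : ℝ} (ht : 0 ≤ t) : |Real.exp (-t) - 1| ≤ t := by
  have h1 := Real.add_one_le_exp (-t)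
  have h2 : Real.exp (-t) ≤ 1 := by rw [Real.exp_le_one_iff]; linarith
  rw [abs_le]
  constructor <;> linarith

theorem exp_pow_bound {K N : ℕ} (hN : 3 ≤ N) {t : ℝ} (ht : t ≤ K) : Real.exp t ≤ (N : ℝ) ^ K := by
  have h3 : (3 : ℝ) ≤ N := by exact_mod_cast hN
  calc Real.exp t ≤ Real.exp ((K : ℝ) * 1) := Real.exp_le_exp.mpr (by linarith)
    _ = Real.exp 1 ^ K := Real.exp_nat_mul 1 K
    _ ≤ (N : ℝ) ^ K := pow_le_pow_left₀ (Real.exp_pos 1).le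
        (le_trans (by have := Real.exp_one_lt_d9; linarith) h3) K

/-- smallness of the closeness quantity -/
theorem small {N w : ℕ} (hN : 2 ^ 60 ≤ N) (hw : N ^ 48 ≤ w) {lam : ℝ} (h0 : 0 < lam)
    (h : lam ^ 50 * (2 : ℝ) ^ (7 * w) ≤ 1) : 4 * (N : ℝ) ^ (N ^ 33) * lam ≤ 1 := by
  have h2 : (N : ℝ) ≤ 2 ^ N := by exact_mod_cast (Nat.lt_two_pow_self (n := N)).le
  have h3 : (4 * (N : ℝ) ^ (N ^ 33)) ^ 50 ≤ (2 : ℝ) ^ (7 * w) := by
    calc (4 * (N : ℝ) ^ (N ^ 33)) ^ 50 = 4 ^ 50 * (N : ℝ) ^ (N ^ 33 * 50) := by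
          rw [mul_pow, ← pow_mul]
      _ ≤ 4 ^ 50 * ((2 : ℝ) ^ N) ^ (N ^ 33 * 50) := by gcongr
      _ = (2 : ℝ) ^ (100 + N * (N ^ 33 * 50)) := by
          rw [pow_add, pow_mul 2 N]
          norm_num
      _ ≤ 2 ^ (7 * w) := pow_le_pow_right₀ (by norm_num) (n6 hN hw)
  have h4 : (4 * (N : ℝ) ^ (N ^ 33) * lam) ^ 50 ≤ 1 := by
    rw [mul_pow]
    calc (4 * (N : ℝ) ^ (N ^ 33)) ^ 50 * lam ^ 50 ≤ (2 : ℝ) ^ (7 * w) * lam ^ 50 :=
          mul_le_mul_of_nonneg_right h3 (by positivity)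
      _ ≤ 1 := by rw [mul_comm]; exact h
  by_contra hc
  push Not at hc
  have h5 := one_lt_pow₀ hc (n := 50) (by norm_num)
  linarith

theorem core2 (ube : UbeStmt) (per : PerStmt) (hmin : MinStmt) (zer : ZerStmt) (hgcd : GcdStmt)
    {K R f A W z w : ℕ} {N X lam δ : ℝ} (hKpos : 1 ≤ K) (hN : 4 ≤ N) (hwpos : 0 < w) (hf : 2 ≤ f)
    (h : Near f A W z w) (hlm : lam = (z : ℝ) * Real.log A - w * Real.log W) (hL0 : 0 < lam)
    (hLR : 128 ≤ R) (f7 : 7 * R ≤ w) (f8 : (K - 1) * 128 < (R - 128) * R)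
    (hX : X = 4 * (R : ℝ) * w) (hXN : X ≤ N ^ 57)
    (hfac : ((Nat.factorial (K * 128) : ℕ) : ℝ) ≤ (N ^ 17) ^ (K * 128))
    (hK2 : 128 * (4 * (R : ℝ) * N ^ 2 * Real.log A) ≤ K) (hδe : 128 * (R : ℝ) * lam ≤ δ)
    (hδ1 : δ ≤ 1) (hδ : N ^ ((58 * K + 18) * (K * 128)) * δ ≤ 1 / 4)
    (hexpb : ∀ t : ℝ, t ≤ K → Real.exp t ≤ N ^ K) : False := by
  have hwr : (0 : ℝ) < w := by exact_mod_cast hwpos
  have hA2 : 2 ≤ A := le_trans hf h.hA
  have hW2 : 2 ≤ W := le_trans hf h.hW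
  have hA2r : (2 : ℝ) ≤ A := by exact_mod_cast hA2
  have hlogA0 : 0 ≤ Real.log A := Real.log_nonneg (by linarith only [hA2r])
  have hN1r : (1 : ℝ) ≤ N := by linarith only [hN]
  have hNpos : (0 : ℝ) < N := by linarith only [hN]
  have hR0 : (0 : ℝ) ≤ R := Nat.cast_nonneg R
  obtain ⟨e, he⟩ := minor hmin zer (K := K) (L := 128) (R := R) (w := w) (z := z) hA2
    (le_trans one_le_two hW2) hwpos hLR f8
    (fun r s r' s' _ hs _ hs' hh => distinct hwpos (hgcd f A W z w hf hwpos h)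
      f7 r s r' s' hs hs' hh)
  obtain ⟨β, hβ⟩ : ∃ β : ℝ, β = Real.log A / w := ⟨_, rfl⟩
  have hβ0 : 0 ≤ β := by rw [hβ]; exact div_nonneg hlogA0 hwr.le
  obtain ⟨kk, hkk⟩ : ∃ kk : Fin (K * 128) → ℕ,
      kk = fun i => ((finProdFinEquiv.symm i).1 : ℕ) := ⟨_, rfl⟩
  obtain ⟨mm, hmm⟩ : ∃ mm : Fin (K * 128) → ℕ,
      mm = fun i => ((finProdFinEquiv.symm i).2 : ℕ) := ⟨_, rfl⟩
  obtain ⟨xx, hxx⟩ : ∃ xx : Fin (K * 128) → ℝ,
      xx = fun j => ((((e j).1 : ℕ) * w + ((e j).2 : ℕ) * z : ℕ) : ℝ) := ⟨_, rfl⟩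
  obtain ⟨ee, hee⟩ : ∃ ee : Fin (K * 128) → Fin (K * 128) → ℝ,
      ee = fun i j => Real.exp (-((mm i : ℝ) * ((e j).2 : ℕ) * lam / w)) - 1 := ⟨_, rfl⟩
  obtain ⟨aa, haa⟩ : ∃ aa : Fin (K * 128) → Fin (K * 128) → ℝ,
      aa = fun i j => xx j ^ kk i * Real.exp (((mm i : ℝ) * β) * xx j) := ⟨_, rfl⟩
  have hmat : (Matrix.of fun i j : Fin (K * 128) =>
        (((((e j).1 : ℕ) * w + ((e j).2 : ℕ) * z : ℕ) : ℝ) ^ ((finProdFinEquiv.symm i).1 : ℕ) *
        ((A : ℝ) ^ (((finProdFinEquiv.symm i).2 : ℕ) * ((e j).1 : ℕ)) *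
          (W : ℝ) ^ (((finProdFinEquiv.symm i).2 : ℕ) * ((e j).2 : ℕ))))) =
      Matrix.of fun i j : Fin (K * 128) => aa i j * (1 + ee i j) := by
    ext i j
    simp only [Matrix.of_apply]
    rw [entry hA2 hW2 hwpos, haa, hee, hxx, hkk, hmm, hβ, hlm]
  rw [hmat] at he
  -- bounds
  have hkb : ∀ i, kk i ≤ K := by intro i; rw [hkk]; exact (finProdFinEquiv.symm i).1.isLt.le
  have hmb : ∀ i, (mm i : ℝ) ≤ 128 := by
    intro i
    have h1 : mm i ≤ 128 := by rw [hmm]; exact (finProdFinEquiv.symm i).2.isLt.le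
    exact_mod_cast h1
  have hm0 : ∀ i, (0 : ℝ) ≤ mm i := fun i => Nat.cast_nonneg _
  have hx0 : ∀ j, 0 ≤ xx j := by intro j; rw [hxx]; exact Nat.cast_nonneg _
  have hX0 : 0 ≤ X := by rw [hX]; exact mul_nonneg (mul_nonneg (by norm_num) hR0) hwr.le
  have hxX : ∀ j, xx j ≤ X := by
    intro j
    have h1 : ((e j).1 : ℕ) * w + ((e j).2 : ℕ) * z ≤ 4 * R * w := by
      have h2 : ((e j).1 : ℕ) * w ≤ R * w := Nat.mul_le_mul_right _ (e j).1.isLt.le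
      have h3 : ((e j).2 : ℕ) * z ≤ R * (3 * w) := Nat.mul_le_mul (e j).2.isLt.le h.hz
      calc ((e j).1 : ℕ) * w + ((e j).2 : ℕ) * z ≤ R * w + R * (3 * w) := Nat.add_le_add h2 h3
        _ = 4 * R * w := by ring
    have h4 : ((((e j).1 : ℕ) * w + ((e j).2 : ℕ) * z : ℕ) : ℝ) ≤ 4 * (R : ℝ) * w := by
      exact_mod_cast h1
    rw [hxx, hX]
    exact h4
  have hN2 : (1 : ℝ) ≤ N ^ 2 := one_le_pow₀ hN1r
  have hN20 : (0 : ℝ) ≤ N ^ 2 := le_trans zero_le_one hN2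
  have hNX0 : 0 ≤ N ^ 2 * X := mul_nonneg hN20 hX0
  have hmβ0 : ∀ i, 0 ≤ (mm i : ℝ) * β := fun i => mul_nonneg (hm0 i) hβ0
  have hbX : ∀ i, ((mm i : ℝ) * β) * (N ^ 2 * X) ≤ K := by
    intro i
    have h1 : β * (N ^ 2 * X) = 4 * (R : ℝ) * N ^ 2 * Real.log A := by
      rw [hβ, hX]
      field_simp
    have h2 : 0 ≤ 4 * (R : ℝ) * N ^ 2 * Real.log A := by
      rw [← h1]; exact mul_nonneg hβ0 hNX0
    calc ((mm i : ℝ) * β) * (N ^ 2 * X) = (mm i : ℝ) * (β * (N ^ 2 * X)) := by ring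
      _ ≤ 128 * (4 * (R : ℝ) * N ^ 2 * Real.log A) := by
          rw [h1]
          exact mul_le_mul_of_nonneg_right (hmb i) h2
      _ ≤ K := hK2
  have hpowN : ∀ n : ℕ, (0 : ℝ) < N ^ n := fun n => pow_pos hNpos n
  -- the analytic determinant
  have hU := ube (K * 128) kk (fun i => (mm i : ℝ) * β) xx X (N ^ 2) hX0 hN2
    hmβ0 (fun j => by rw [abs_of_nonneg (hx0 j)]; exact hxX j)
  have hterm0 : ∀ i : Fin (K * 128), 0 ≤ (N ^ 2 * X) ^ kk i *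
      Real.exp ((mm i : ℝ) * β * (N ^ 2 * X)) :=
    fun i => mul_nonneg (pow_nonneg hNX0 _) (Real.exp_pos _).le
  have hprod : ∏ i : Fin (K * 128), ((N ^ 2 * X) ^ kk i *
      Real.exp ((mm i : ℝ) * β * (N ^ 2 * X))) ≤ (N ^ (60 * K)) ^ (K * 128) := by
    have h1 : ∏ i : Fin (K * 128), ((N ^ 2 * X) ^ kk i *
        Real.exp ((mm i : ℝ) * β * (N ^ 2 * X))) ≤
        ∏ _i : Fin (K * 128), N ^ (60 * K) := by
      refine Finset.prod_le_prod (fun i _ => hterm0 i) (fun i _ => ?_)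
      have h2 : (N ^ 2 * X) ^ kk i ≤ N ^ (59 * K) := by
        calc (N ^ 2 * X) ^ kk i ≤ (N ^ 59) ^ kk i := by
              refine pow_le_pow_left₀ hNX0 ?_ _
              calc N ^ 2 * X ≤ N ^ 2 * N ^ 57 :=
                    mul_le_mul_of_nonneg_left hXN hN20
                _ = N ^ 59 := by ring
          _ ≤ (N ^ 59) ^ K := pow_le_pow_right₀ (one_le_pow₀ hN1r) (hkb i)
          _ = N ^ (59 * K) := (pow_mul _ _ _).symm
      have h3 : Real.exp ((mm i : ℝ) * β * (N ^ 2 * X)) ≤ N ^ K := hexpb _ (hbX i)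
      calc (N ^ 2 * X) ^ kk i * Real.exp ((mm i : ℝ) * β * (N ^ 2 * X))
          ≤ N ^ (59 * K) * N ^ K := mul_le_mul h2 h3 (Real.exp_pos _).le (hpowN _).le
        _ = N ^ (60 * K) := by rw [← pow_add]; congr 1; ring
    refine le_trans h1 (le_of_eq ?_)
    rw [Finset.prod_const, Finset.card_univ, Fintype.card_fin]
  have hexp : (N ^ 2) ^ ((K * 128) * ((K * 128) - 1) / 2) =
      N ^ ((K * 128) * ((K * 128) - 1)) := by
    rw [← pow_mul, Nat.mul_div_cancel' (Nat.even_mul_pred_self (K * 128)).two_dvd]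
  have hdet0 : |Matrix.det (Matrix.of aa)| ≤ 1 / 4 := by
    have h1 : N ^ ((K * 128) * ((K * 128) - 1)) * |Matrix.det (Matrix.of aa)| ≤
        N ^ ((60 * K + 17) * (K * 128)) := by
      have h2 : N ^ ((K * 128) * ((K * 128) - 1)) * |Matrix.det (Matrix.of aa)| ≤
          ((Nat.factorial (K * 128) : ℕ) : ℝ) * ∏ i : Fin (K * 128), ((N ^ 2 * X) ^ kk i *
            Real.exp ((mm i : ℝ) * β * (N ^ 2 * X))) := by
        rw [← hexp, haa]
        exact hU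
      calc N ^ ((K * 128) * ((K * 128) - 1)) * |Matrix.det (Matrix.of aa)|
          ≤ ((Nat.factorial (K * 128) : ℕ) : ℝ) * ∏ i : Fin (K * 128),
            ((N ^ 2 * X) ^ kk i *
            Real.exp ((mm i : ℝ) * β * (N ^ 2 * X))) := h2
        _ ≤ (N ^ 17) ^ (K * 128) * (N ^ (60 * K)) ^ (K * 128) :=
            mul_le_mul hfac hprod (Finset.prod_nonneg (fun i _ => hterm0 i))
              (pow_pos (hpowN _) _).le
        _ = N ^ ((60 * K + 17) * (K * 128)) := by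
            rw [← mul_pow, ← pow_add, ← pow_mul]
            congr 1
            ring
    have h3 : N ^ ((60 * K + 17) * (K * 128) + 1) ≤
        N ^ ((K * 128) * ((K * 128) - 1)) := pow_le_pow_right₀ hN1r (n4 hKpos)
    have h4 : N ^ ((60 * K + 17) * (K * 128)) * (N * |Matrix.det (Matrix.of aa)|) ≤
        N ^ ((60 * K + 17) * (K * 128)) * 1 := by
      calc N ^ ((60 * K + 17) * (K * 128)) * (N * |Matrix.det (Matrix.of aa)|)
          = N ^ ((60 * K + 17) * (K * 128) + 1) * |Matrix.det (Matrix.of aa)| := by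
            rw [pow_succ]; ring
        _ ≤ N ^ ((K * 128) * ((K * 128) - 1)) * |Matrix.det (Matrix.of aa)| :=
            mul_le_mul_of_nonneg_right h3 (abs_nonneg _)
        _ ≤ N ^ ((60 * K + 17) * (K * 128)) * 1 := by rw [mul_one]; exact h1
    have h5 : N * |Matrix.det (Matrix.of aa)| ≤ 1 := le_of_mul_le_mul_left h4 (hpowN _)
    have h6 : 4 * |Matrix.det (Matrix.of aa)| ≤ N * |Matrix.det (Matrix.of aa)| :=
      mul_le_mul_of_nonneg_right hN (abs_nonneg _)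
    linarith only [h5, h6]
  -- the perturbation
  have hmx : ∀ i j, ((mm i : ℝ) * β) * xx j ≤ K := by
    intro i j
    refine le_trans ?_ (hbX i)
    refine mul_le_mul_of_nonneg_left ?_ (hmβ0 i)
    calc xx j ≤ X := hxX j
      _ = 1 * X := (one_mul X).symm
      _ ≤ N ^ 2 * X := mul_le_mul_of_nonneg_right hN2 hX0
  have hE : ∀ i j, |aa i j| ≤ N ^ (58 * K) := by
    intro i j
    have h0 : 0 ≤ aa i j := by
      rw [haa]
      exact mul_nonneg (pow_nonneg (hx0 j) _) (Real.exp_pos _).le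
    rw [abs_of_nonneg h0, haa]
    have h2 : xx j ^ kk i ≤ N ^ (57 * K) := by
      calc xx j ^ kk i ≤ (N ^ 57) ^ kk i :=
            pow_le_pow_left₀ (hx0 j) (le_trans (hxX j) hXN) _
        _ ≤ (N ^ 57) ^ K := pow_le_pow_right₀ (one_le_pow₀ hN1r) (hkb i)
        _ = N ^ (57 * K) := (pow_mul _ _ _).symm
    calc xx j ^ kk i * Real.exp ((mm i : ℝ) * β * xx j)
        ≤ N ^ (57 * K) * N ^ K :=
          mul_le_mul h2 (hexpb _ (hmx i j)) (Real.exp_pos _).le (hpowN _).le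
      _ = N ^ (58 * K) := by rw [← pow_add]; congr 1; ring
  have hee' : ∀ i j, |ee i j| ≤ δ := by
    intro i j
    rw [hee]
    have h0 : (0 : ℝ) ≤ (((e j).2 : ℕ) : ℝ) := Nat.cast_nonneg _
    have h00 : 0 ≤ (mm i : ℝ) * ((e j).2 : ℕ) * lam :=
      mul_nonneg (mul_nonneg (hm0 i) h0) hL0.le
    have h1 : 0 ≤ (mm i : ℝ) * ((e j).2 : ℕ) * lam / w := div_nonneg h00 hwr.le
    refine le_trans (exp_neg_bound h1) ?_
    have h2 : (((e j).2 : ℕ) : ℝ) ≤ R := by exact_mod_cast (e j).2.isLt.le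
    have h4 : (1 : ℝ) ≤ w := by exact_mod_cast hwpos
    calc (mm i : ℝ) * ((e j).2 : ℕ) * lam / w ≤ (mm i : ℝ) * ((e j).2 : ℕ) * lam :=
          div_le_self h00 h4
      _ ≤ 128 * (R : ℝ) * lam := by
          refine mul_le_mul_of_nonneg_right ?_ hL0.le
          exact mul_le_mul (hmb i) h2 h0 (by norm_num)
      _ ≤ δ := hδe
  have hδ0 : 0 ≤ δ := by
    refine le_trans ?_ hδe
    exact mul_nonneg (mul_nonneg (by norm_num) hR0) hL0.le
  have hP := per (K * 128) aa ee (fun _ => N ^ (58 * K)) δ hδ0 hδ1 hE hee'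
  have hP2 : |Matrix.det (Matrix.of fun i j : Fin (K * 128) => aa i j * (1 + ee i j)) -
      Matrix.det (Matrix.of aa)| ≤ 1 / 4 := by
    refine le_trans hP ?_
    rw [Finset.prod_const, Finset.card_univ, Fintype.card_fin]
    have h2 : (2 : ℝ) ^ (K * 128) ≤ N ^ (K * 128) :=
      pow_le_pow_left₀ (by norm_num) (by linarith only [hN]) _
    have h3 : (0 : ℝ) ≤ 2 ^ (K * 128) := pow_nonneg (by norm_num) _
    calc ((Nat.factorial (K * 128) : ℕ) : ℝ) * (N ^ (58 * K)) ^ (K * 128) *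
          2 ^ (K * 128) * δ
        ≤ (N ^ 17) ^ (K * 128) * (N ^ (58 * K)) ^ (K * 128) *
          N ^ (K * 128) * δ := by
          refine mul_le_mul_of_nonneg_right ?_ hδ0
          refine mul_le_mul ?_ h2 h3 (mul_pos (pow_pos (hpowN _) _) (pow_pos (hpowN _) _)).le
          exact mul_le_mul_of_nonneg_right hfac (pow_pos (hpowN _) _).le
      _ = N ^ ((58 * K + 18) * (K * 128)) * δ := by
          rw [← mul_pow, ← pow_add, ← mul_pow, ← pow_succ, ← pow_mul]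
          congr 2
          ring
      _ ≤ 1 / 4 := hδ
  have hfin : |Matrix.det (Matrix.of fun i j : Fin (K * 128) => aa i j * (1 + ee i j))| ≤
      |Matrix.det (Matrix.of fun i j : Fin (K * 128) => aa i j * (1 + ee i j)) -
      Matrix.det (Matrix.of aa)| + |Matrix.det (Matrix.of aa)| := by
    have h1 := abs_add_le (Matrix.det (Matrix.of fun i j : Fin (K * 128) =>
      aa i j * (1 + ee i j)) - Matrix.det (Matrix.of aa)) (Matrix.det (Matrix.of aa))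
    rwa [sub_add_cancel] at h1
  linarith only [hfin, hP2, hdet0, he]

theorem core (ube : UbeStmt) (per : PerStmt) (hmin : MinStmt) (zer : ZerStmt) (hgcd : GcdStmt)
    {N f A W z w : ℕ} (hN : 2 ^ 60 ≤ N) (hw : N ^ 48 ≤ w)
    (hw2 : w < (N + 1) ^ 48) (hf : 2 ≤ f) (h : Near f A W z w)
    (hlam : Real.log f < ((N : ℝ) + 1) ^ 2) : False := by
  have hN1 : 1 ≤ N := le_trans Nat.one_le_two_pow hN
  have hN2048 : 2048 ≤ N := le_trans (by norm_num) hN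
  have hN1r : (1 : ℝ) ≤ N := by exact_mod_cast hN1
  have hN4r : (4 : ℝ) ≤ N := by exact_mod_cast (le_trans (by norm_num) hN2048 : 4 ≤ N)
  have hNpos : (0 : ℝ) < N := lt_of_lt_of_le one_pos hN1r
  have hwpos : 0 < w := lt_of_lt_of_le (Nat.pow_pos hN1) hw
  obtain ⟨hL0, hL1⟩ := near_log hf h
  have hsm := small hN hw hL0 hL1
  have hA2 : 2 ≤ A := le_trans hf h.hA
  have hA2r : (2 : ℝ) ≤ A := by exact_mod_cast hA2
  have hlogA : Real.log A ≤ 8 * (N : ℝ) ^ 2 := by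
    have h1 : Real.log A ≤ Real.log ((f : ℝ) ^ 2) :=
      Real.log_le_log (by linarith only [hA2r]) (by exact_mod_cast h.hA')
    rw [Real.log_pow] at h1
    push_cast at h1
    have h2 : ((N : ℝ) + 1) ^ 2 ≤ (2 * N) ^ 2 :=
      pow_le_pow_left₀ (by linarith only [hN1r]) (by linarith only [hN1r]) 2
    rw [mul_pow] at h2
    linarith only [h1, h2, hlam]
  have hLR : 128 ≤ 16 * N ^ 8 := by
    have h1 : N ^ 1 ≤ N ^ 8 := Nat.pow_le_pow_right hN1 (by norm_num)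
    rw [pow_one] at h1
    exact le_trans (le_trans (by norm_num) hN2048) (le_trans h1 (Nat.le_mul_of_pos_left _ (by norm_num)))
  have hfac : ((Nat.factorial (N ^ 16 * 128) : ℕ) : ℝ) ≤ ((N : ℝ) ^ 17) ^ (N ^ 16 * 128) := by
    have h1 : Nat.factorial (N ^ 16 * 128) ≤ (N ^ 17) ^ (N ^ 16 * 128) :=
      le_trans (Nat.factorial_le_pow _) (Nat.pow_le_pow_left (n2 hN) _)
    exact_mod_cast h1
  have hKr : 65536 * (N : ℝ) ^ 12 ≤ ((N ^ 16 : ℕ) : ℝ) := by exact_mod_cast n3 hN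
  have hXN : 64 * (N : ℝ) ^ 8 * w ≤ (N : ℝ) ^ 57 := by exact_mod_cast n1 hN hw2
  have hN9 : (2048 : ℝ) * (N : ℝ) ^ 8 ≤ (N : ℝ) ^ 9 := by
    have h1 : (2048 : ℝ) ≤ N := by exact_mod_cast hN2048
    calc (2048 : ℝ) * (N : ℝ) ^ 8 ≤ N * (N : ℝ) ^ 8 :=
          mul_le_mul_of_nonneg_right h1 (pow_pos hNpos _).le
      _ = (N : ℝ) ^ 9 := by ring
  have hbig : ∀ M : ℕ, M ≤ N ^ 33 →
      (N : ℝ) ^ M * ((z : ℝ) * Real.log A - w * Real.log W) ≤ 1 / 4 := by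
    intro M hM
    have h1 : (N : ℝ) ^ M ≤ (N : ℝ) ^ (N ^ 33) := pow_le_pow_right₀ hN1r hM
    have h2 := mul_le_mul_of_nonneg_right h1 hL0.le
    linarith only [h2, hsm]
  have hM := n5 hN
  have h9 : (N : ℝ) ^ 9 * ((z : ℝ) * Real.log A - w * Real.log W) ≤ 1 / 4 :=
    hbig 9 (le_trans (Nat.le_add_left _ _) hM)
  have hM2 := hbig _ hM
  refine core2 ube per hmin zer hgcd (K := N ^ 16) (R := 16 * N ^ 8) (N := (N : ℝ))
    (X := 64 * (N : ℝ) ^ 8 * w) (δ := (N : ℝ) ^ 9 * ((z : ℝ) * Real.log A - w * Real.log W))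
    (Nat.one_le_pow _ _ hN1) hN4r hwpos hf h rfl hL0 hLR (n7 hN hw) (n8 hN) ?_ hXN hfac ?_ ?_ ?_ ?_ ?_
  · push_cast; ring
  · refine le_trans ?_ hKr
    push_cast
    calc 128 * (4 * (16 * (N : ℝ) ^ 8) * (N : ℝ) ^ 2 * Real.log A)
        = 8192 * (N : ℝ) ^ 10 * Real.log A := by ring
      _ ≤ 8192 * (N : ℝ) ^ 10 * (8 * (N : ℝ) ^ 2) :=
          mul_le_mul_of_nonneg_left hlogA (mul_pos (by norm_num) (pow_pos hNpos _)).le
      _ = 65536 * (N : ℝ) ^ 12 := by ring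
  · push_cast
    calc 128 * (16 * (N : ℝ) ^ 8) * ((z : ℝ) * Real.log A - w * Real.log W)
        = 2048 * (N : ℝ) ^ 8 * ((z : ℝ) * Real.log A - w * Real.log W) := by ring
      _ ≤ _ := mul_le_mul_of_nonneg_right hN9 hL0.le
  · linarith only [h9]
  · rw [pow_add, mul_assoc] at hM2
    exact hM2
  · intro t ht
    exact exp_pow_bound (le_trans (by norm_num) hN2048) ht

/-- row TWO -/
theorem two (ube : UbeStmt) (per : PerStmt) (hmin : MinStmt) (zer : ZerStmt) (hgcd : GcdStmt) :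
    TwoStmt := by
  refine ⟨(2 ^ 60) ^ 48, fun f A W z w hf hw h => ?_⟩
  by_contra hcon
  push Not at hcon
  have hex : ∃ n : ℕ, w < (n + 1) ^ 48 :=
    ⟨w, lt_of_lt_of_le (Nat.lt_succ_self w) (Nat.le_self_pow (by norm_num) _)⟩
  obtain ⟨N, hNlt, hNmin⟩ : ∃ N : ℕ, w < (N + 1) ^ 48 ∧ ∀ m : ℕ, m < N → ¬ w < (m + 1) ^ 48 := by
    classical
    exact ⟨Nat.find hex, Nat.find_spec hex, fun m hm => Nat.find_min hex hm⟩
  have hN : 2 ^ 60 ≤ N := by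
    have h1 : (2 ^ 60) ^ 48 < (N + 1) ^ 48 := lt_of_le_of_lt hw hNlt
    exact Nat.lt_succ_iff.mp (lt_of_pow_lt_pow_left₀ 48 (Nat.zero_le _) h1)
  clear hw
  have h1N : 1 ≤ N := le_trans Nat.one_le_two_pow hN
  have hNw : N ^ 48 ≤ w := by
    have h2 := hNmin (N - 1) (Nat.sub_lt h1N one_pos)
    rw [Nat.sub_add_cancel h1N] at h2
    exact not_lt.mp h2
  have hlam : Real.log f < ((N : ℝ) + 1) ^ 2 := by
    have h1 : Real.log f ^ 24 < (((N : ℝ) + 1) ^ 2) ^ 24 := by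
      have h2 : (w : ℝ) < ((N : ℝ) + 1) ^ 48 := by exact_mod_cast hNlt
      calc Real.log f ^ 24 < w := hcon
        _ < ((N : ℝ) + 1) ^ 48 := h2
        _ = (((N : ℝ) + 1) ^ 2) ^ 24 := by rw [← pow_mul]
    exact lt_of_pow_lt_pow_left₀ 24 (sq_nonneg _) h1
  exact core ube per hmin zer hgcd hN hNw hNlt hf h hlam

end Pool.Agent.MNE.H64
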